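import Pool.Agent.Helper26.LU.Goals

/-!
# Project LU, packet T1b
-/

namespace Pool.Agent.Helper96.LU

open MeasureTheory Matrix Real Topology Pool.Agent.Helper26.LU

/-! ### The determinant -/

theorem det3_eq (u v w : V) : det3 u v w = u 0 * (v 1 * w 2 - v 2 * w 1) +
    u 1 * (v 2 * w 0 - v 0 * w 2) + u 2 * (v 0 * w 1 - v 1 * w 0) := by
  simp [det3, dotProduct, Fin.sum_univ_three, cross_apply]

theorem det3_bound {u v w : V} {a b c : ℝ} (hu : ‖u‖ ≤ a) (hv : ‖v‖ ≤ b) (hw : ‖w‖ ≤ c) :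
    |det3 u v w| ≤ 6 * (a * b * c) := by
  have ha : 0 ≤ a := (norm_nonneg _).trans hu
  have hb : 0 ≤ b := (norm_nonneg _).trans hv
  have hc : 0 ≤ c := (norm_nonneg _).trans hw
  have key : ∀ i j k : Fin 3, |u i * (v j * w k)| ≤ a * b * c := by
    intro i j k
    rw [abs_mul, abs_mul, mul_assoc]
    exact mul_le_mul ((coord_le_norm u i).trans hu)
      (mul_le_mul ((coord_le_norm v j).trans hv) ((coord_le_norm w k).trans hw)
        (abs_nonneg _) hb) (by positivity) ha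
  rw [det3_eq]
  have e : u 0 * (v 1 * w 2 - v 2 * w 1) +
    u 1 * (v 2 * w 0 - v 0 * w 2) + u 2 * (v 0 * w 1 - v 1 * w 0)
    = u 0 * (v 1 * w 2) - u 0 * (v 2 * w 1) + u 1 * (v 2 * w 0) - u 1 * (v 0 * w 2)
      + u 2 * (v 0 * w 1) - u 2 * (v 1 * w 0) := by ring
  rw [e, abs_le]
  have h1 := abs_le.1 (key 0 1 2)
  have h2 := abs_le.1 (key 0 2 1)
  have h3 := abs_le.1 (key 1 2 0)
  have h4 := abs_le.1 (key 1 0 2)
  have h5 := abs_le.1 (key 2 0 1)
  have h6 := abs_le.1 (key 2 1 0)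
  constructor <;> linarith [h1.1, h1.2, h2.1, h2.2, h3.1, h3.2, h4.1, h4.2, h5.1, h5.2, h6.1, h6.2]

theorem cramer (a b c v : V) :
    det3 a b c • v = det3 v b c • a + det3 a v c • b + det3 a b v • c := by
  ext i
  simp only [det3_eq, Pi.add_apply, Pi.smul_apply, smul_eq_mul]
  fin_cases i <;> simp <;> ring

theorem hasFDerivAt_det3 {X : Type} [NormedAddCommGroup X] [NormedSpace ℝ X] {a b c : X → V}
    {a' b' c' : X →L[ℝ] V} {x : X} (ha : HasFDerivAt a a' x) (hb : HasFDerivAt b b' x)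
    (hc : HasFDerivAt c c' x) : ∃ L : X →L[ℝ] ℝ,
    HasFDerivAt (fun z => det3 (a z) (b z) (c z)) L x ∧
    ∀ e, L e = det3 (a' e) (b x) (c x) + det3 (a x) (b' e) (c x) + det3 (a x) (b x) (c' e) := by
  have pa : ∀ i : Fin 3, HasFDerivAt (fun z => a z i)
      ((ContinuousLinearMap.proj (R := ℝ) (φ := fun _ : Fin 3 => ℝ) i).comp a') x := fun i =>
    (hasFDerivAt_pi'.1 ha) i
  have pb : ∀ i : Fin 3, HasFDerivAt (fun z => b z i)
      ((ContinuousLinearMap.proj (R := ℝ) (φ := fun _ : Fin 3 => ℝ) i).comp b') x := fun i =>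
    (hasFDerivAt_pi'.1 hb) i
  have pc : ∀ i : Fin 3, HasFDerivAt (fun z => c z i)
      ((ContinuousLinearMap.proj (R := ℝ) (φ := fun _ : Fin 3 => ℝ) i).comp c') x := fun i =>
    (hasFDerivAt_pi'.1 hc) i
  have h := (((pa 0).mul (((pb 1).mul (pc 2)).sub ((pb 2).mul (pc 1)))).add
    ((pa 1).mul (((pb 2).mul (pc 0)).sub ((pb 0).mul (pc 2))))).add
    ((pa 2).mul (((pb 0).mul (pc 1)).sub ((pb 1).mul (pc 0))))
  refine ⟨_, h.congr_of_eventuallyEq (Filter.Eventually.of_forall fun z => ?_), ?_⟩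
  · exact det3_eq (a z) (b z) (c z)
  · intro e
    simp [det3_eq]
    ring

/-! ### Directional derivatives -/

theorem dx_eq {E : Type} [NormedAddCommGroup E] [NormedSpace ℝ E] {F : ℝ × ℝ → E}
    {L : ℝ × ℝ →L[ℝ] E} {z : ℝ × ℝ} (h : HasFDerivAt F L z) : dx F z = L (1, 0) := by
  rw [dx, h.fderiv]

theorem dy_eq {E : Type} [NormedAddCommGroup E] [NormedSpace ℝ E] {F : ℝ × ℝ → E}
    {L : ℝ × ℝ →L[ℝ] E} {z : ℝ × ℝ} (h : HasFDerivAt F L z) : dy F z = L (0, 1) := by
  rw [dy, h.fderiv]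

theorem contDiff_dx {E : Type} [NormedAddCommGroup E] [NormedSpace ℝ E] {F : ℝ × ℝ → E}
    (h : ContDiff ℝ 2 F) : ContDiff ℝ 1 (dx F) :=
  ((h.fderiv_right (m := 1) (by norm_num)).clm_apply contDiff_const)

theorem contDiff_dy {E : Type} [NormedAddCommGroup E] [NormedSpace ℝ E] {F : ℝ × ℝ → E}
    (h : ContDiff ℝ 2 F) : ContDiff ℝ 1 (dy F) :=
  ((h.fderiv_right (m := 1) (by norm_num)).clm_apply contDiff_const)

theorem dx_hom {E : Type} [NormedAddCommGroup E] [NormedSpace ℝ E] {F G : ℝ × ℝ → E}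
    (hF : Differentiable ℝ F) (hG : Differentiable ℝ G) (s : ℝ) :
    dx (fun z => F z + s • (G z - F z)) = fun z => dx F z + s • (dx G z - dx F z) := by
  funext z
  have h := (hF z).hasFDerivAt.add (((hG z).hasFDerivAt.sub (hF z).hasFDerivAt).const_smul s)
  rw [show dx (fun z => F z + s • (G z - F z)) z = _ from dx_eq h]
  simp [dx]

theorem dy_hom {E : Type} [NormedAddCommGroup E] [NormedSpace ℝ E] {F G : ℝ × ℝ → E}
    (hF : Differentiable ℝ F) (hG : Differentiable ℝ G) (s : ℝ) :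
    dy (fun z => F z + s • (G z - F z)) = fun z => dy F z + s • (dy G z - dy F z) := by
  funext z
  have h := (hF z).hasFDerivAt.add (((hG z).hasFDerivAt.sub (hF z).hasFDerivAt).const_smul s)
  rw [show dy (fun z => F z + s • (G z - F z)) z = _ from dy_eq h]
  simp [dy]

theorem hom_bound {E : Type} [NormedAddCommGroup E] [NormedSpace ℝ E] {a b : E} {B s : ℝ}
    (ha : ‖a‖ ≤ B) (hb : ‖b‖ ≤ B) (hs : s ∈ Set.Icc (0 : ℝ) 1) : ‖a + s • (b - a)‖ ≤ B := by
  have e : a + s • (b - a) = (1 - s) • a + s • b := by module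
  rw [e]
  have h0 : 0 ≤ 1 - s := by linarith [hs.2]
  calc ‖(1 - s) • a + s • b‖ ≤ ‖(1 - s) • a‖ + ‖s • b‖ := norm_add_le _ _
    _ = (1 - s) * ‖a‖ + s * ‖b‖ := by
        rw [norm_smul, norm_smul, Real.norm_eq_abs, Real.norm_eq_abs, abs_of_nonneg h0,
          abs_of_nonneg hs.1]
    _ ≤ (1 - s) * B + s * B := by
        have := hs.1
        gcongr
    _ = B := by ring

theorem hom_C2bd {E : Type} [NormedAddCommGroup E] [NormedSpace ℝ E] {F G : ℝ × ℝ → E} {B : ℝ}
    (hF : C2bd F B) (hG : C2bd G B) {s : ℝ} (hs : s ∈ Set.Icc (0 : ℝ) 1) :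
    C2bd (fun z => F z + s • (G z - F z)) B := by
  have dF : Differentiable ℝ F := hF.smooth.differentiable (by norm_num)
  have dG : Differentiable ℝ G := hG.smooth.differentiable (by norm_num)
  have dFx : Differentiable ℝ (dx F) := (contDiff_dx hF.smooth).differentiable (by norm_num)
  have dGx : Differentiable ℝ (dx G) := (contDiff_dx hG.smooth).differentiable (by norm_num)
  have dFy : Differentiable ℝ (dy F) := (contDiff_dy hF.smooth).differentiable (by norm_num)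
  have dGy : Differentiable ℝ (dy G) := (contDiff_dy hG.smooth).differentiable (by norm_num)
  refine ⟨hF.smooth.add ((hG.smooth.sub hF.smooth).const_smul s), ?_, ?_, ?_, ?_, ?_, ?_, ?_, ?_⟩
  · intro x y
    constructor
    · simp only [(hF.per x y).1, (hG.per x y).1]
    · simp only [(hF.per x y).2, (hG.per x y).2]
  · intro z
    exact hom_bound (hF.b0 z) (hG.b0 z) hs
  · intro z
    rw [dx_hom dF dG]
    exact hom_bound (hF.bx z) (hG.bx z) hs
  · intro z
    rw [dy_hom dF dG]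
    exact hom_bound (hF.bY z) (hG.bY z) hs
  · intro z
    rw [dx_hom dF dG, dx_hom dFx dGx]
    exact hom_bound (hF.bxx z) (hG.bxx z) hs
  · intro z
    rw [dy_hom dF dG, dx_hom dFy dGy]
    exact hom_bound (hF.bxy z) (hG.bxy z) hs
  · intro z
    rw [dx_hom dF dG, dy_hom dFx dGx]
    exact hom_bound (hF.byx z) (hG.byx z) hs
  · intro z
    rw [dy_hom dF dG, dy_hom dFy dGy]
    exact hom_bound (hF.byy z) (hG.byy z) hs

/-! ### The radial extension -/

theorem proj_contDiffAt {x : V} (hx : x ≠ 0) : ContDiffAt ℝ 1 proj x := by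
  have h1 : ContDiffAt ℝ 1 (fun x : V => x ⬝ᵥ x) x := by
    simp only [dotProduct, Fin.sum_univ_three]
    have hp : ∀ i : Fin 3, ContDiffAt ℝ 1 (fun x : V => x i) x := fun i =>
      (contDiff_apply ℝ ℝ i).contDiffAt
    exact ((((hp 0).mul (hp 0)).add ((hp 1).mul (hp 1))).add ((hp 2).mul (hp 2)))
  have h2 : x ⬝ᵥ x ≠ 0 := by
    have := nrm_pos hx
    rw [← nrm_sq]
    positivity
  have h3 : ContDiffAt ℝ 1 (fun x : V => (nrm x)⁻¹) x :=
    (h1.sqrt h2).inv (nrm_pos hx).ne'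
  exact h3.smul contDiffAt_id

theorem gh_contDiffAt {g : V → ℝ} (hg : ContDiff ℝ 1 g) {x : V} (hx : x ≠ 0) :
    ContDiffAt ℝ 1 (fun x => g (proj x)) x :=
  hg.contDiffAt.comp x (proj_contDiffAt hx)

theorem proj_smul {x : V} {t : ℝ} (ht : 0 < t) : proj (t • x) = proj x := by
  rw [proj, proj, nrm_smul, abs_of_pos ht, smul_smul]
  congr 1
  field_simp

theorem radial {g : V → ℝ} (hg : ContDiff ℝ 1 g) {x : V} (hx : x ≠ 0) :
    fderiv ℝ (fun x => g (proj x)) x x = 0 := by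
  have h1 : HasFDerivAt (fun x => g (proj x)) (fderiv ℝ (fun x => g (proj x)) x) ((1 : ℝ) • x) := by
    rw [one_smul]
    exact ((gh_contDiffAt hg hx).differentiableAt (by norm_num)).hasFDerivAt
  have h2 : HasDerivAt (fun t : ℝ => t • x) ((1 : ℝ) • x) 1 := (hasDerivAt_id (1 : ℝ)).smul_const x
  have h3 := h1.comp_hasDerivAt (1 : ℝ) h2
  have h4 : HasDerivAt (fun _ : ℝ => g (proj x)) 0 1 := hasDerivAt_const _ _
  have h5 : (fun t : ℝ => g (proj (t • x))) =ᶠ[𝓝 1] fun _ => g (proj x) := by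
    filter_upwards [Ioi_mem_nhds (zero_lt_one' ℝ)] with t ht
    rw [proj_smul ht]
  have h6 := h4.congr_of_eventuallyEq h5
  have := h3.unique h6
  simpa using this

/-! ### Numbers -/

theorem q_bound {t τ : ℝ} (hτ : 0 < τ) : |t / (t ^ 2 + τ)| ≤ 1 + 1 / τ := by
  have h0 : 0 < t ^ 2 + τ := by positivity
  rw [abs_div, abs_of_pos h0, div_le_iff₀ h0]
  have h1 : |t| ≤ t ^ 2 + 1 := by
    have : t ^ 2 = |t| ^ 2 := (sq_abs t).symm
    rw [this]
    nlinarith [sq_nonneg (|t| - 1), abs_nonneg t]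
  have h2 : (1 + 1 / τ) * (t ^ 2 + τ) = t ^ 2 + 1 + (τ + t ^ 2 / τ) := by
    field_simp
    ring
  rw [h2]
  have : 0 ≤ τ + t ^ 2 / τ := by positivity
  linarith

theorem qd_bound {t τ : ℝ} (hτ : 0 < τ) : |(τ - t ^ 2) / (t ^ 2 + τ) ^ 2| ≤ 1 / τ := by
  have h0 : 0 < t ^ 2 + τ := by positivity
  rw [abs_div, abs_of_pos (pow_pos h0 2), div_le_div_iff₀ (pow_pos h0 2) hτ, one_mul]
  have h1 : |τ - t ^ 2| ≤ t ^ 2 + τ := by
    rw [abs_le]
    constructor <;> nlinarith [sq_nonneg t]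
  calc |τ - t ^ 2| * τ ≤ (t ^ 2 + τ) * (t ^ 2 + τ) :=
        mul_le_mul h1 (by nlinarith [sq_nonneg t]) hτ.le h0.le
    _ = (t ^ 2 + τ) ^ 2 := by ring

theorem wd_bound {t τ : ℝ} (hτ : 0 < τ) : |2 * t * τ / (t ^ 2 + τ) ^ 2| ≤ 2 * (1 + 1 / τ) := by
  have h0 : 0 < t ^ 2 + τ := by positivity
  have e : 2 * t * τ / (t ^ 2 + τ) ^ 2 = 2 * (t / (t ^ 2 + τ)) * (τ / (t ^ 2 + τ)) := by
    field_simp
  rw [e, abs_mul, abs_mul]
  have h1 := q_bound (t := t) hτ
  have h2 : |τ / (t ^ 2 + τ)| ≤ 1 := by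
    rw [abs_of_pos (by positivity), div_le_one h0]
    nlinarith [sq_nonneg t]
  calc |(2 : ℝ)| * |t / (t ^ 2 + τ)| * |τ / (t ^ 2 + τ)|
      ≤ |(2 : ℝ)| * (1 + 1 / τ) * 1 := by gcongr
    _ = 2 * (1 + 1 / τ) := by norm_num

theorem w_hasDerivAt {τ : ℝ} (hτ : 0 < τ) (t : ℝ) :
    HasDerivAt (fun t : ℝ => t ^ 2 / (t ^ 2 + τ)) (2 * t * τ / (t ^ 2 + τ) ^ 2) t := by
  have h0 : t ^ 2 + τ ≠ 0 := by positivity
  have h1 : HasDerivAt (fun t : ℝ => t ^ 2) (2 * t) t := by
    simpa using hasDerivAt_pow 2 t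
  have h2 := h1.fun_div (h1.add_const τ) h0
  have e : 2 * t * τ / (t ^ 2 + τ) ^ 2
      = (2 * t * (t ^ 2 + τ) - t ^ 2 * (2 * t)) / (t ^ 2 + τ) ^ 2 := by ring
  rw [e]
  exact h2

theorem q_hasDerivAt {τ : ℝ} (hτ : 0 < τ) (t : ℝ) :
    HasDerivAt (fun t : ℝ => t / (t ^ 2 + τ)) ((τ - t ^ 2) / (t ^ 2 + τ) ^ 2) t := by
  have h0 : t ^ 2 + τ ≠ 0 := by positivity
  have h1 : HasDerivAt (fun t : ℝ => t ^ 2) (2 * t) t := by
    simpa using hasDerivAt_pow 2 t
  have h2 := (hasDerivAt_id t).fun_div (h1.add_const τ) h0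
  have e : (τ - t ^ 2) / (t ^ 2 + τ) ^ 2
      = (1 * (t ^ 2 + τ) - t * (2 * t)) / (t ^ 2 + τ) ^ 2 := by ring
  rw [e]
  exact h2

/-! ### The coefficient of the derivatives -/

/-- `h q D` -/
noncomputable def Af (τ : ℝ) (h J D : ℝ × ℝ → ℝ) (z : ℝ × ℝ) : ℝ :=
  h z * (J z / (J z ^ 2 + τ) * D z)

theorem Af_deriv {τ : ℝ} (hτ : 0 < τ) {h J D : ℝ × ℝ → ℝ} {Lh LJ LD : ℝ × ℝ →L[ℝ] ℝ}
    {z : ℝ × ℝ} (hh : HasFDerivAt h Lh z) (hJ : HasFDerivAt J LJ z) (hD : HasFDerivAt D LD z) :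
    ∃ L : ℝ × ℝ →L[ℝ] ℝ, HasFDerivAt (Af τ h J D) L z ∧ ∀ e, L e =
      Lh e * (J z / (J z ^ 2 + τ) * D z) + h z * ((τ - J z ^ 2) / (J z ^ 2 + τ) ^ 2 * LJ e * D z +
        J z / (J z ^ 2 + τ) * LD e) := by
  have h1 := (q_hasDerivAt hτ (J z)).comp_hasFDerivAt z hJ
  have h2 := hh.mul (h1.mul hD)
  refine ⟨_, h2, ?_⟩
  intro e
  simp
  ring

theorem Af_bound {τ B ε : ℝ} (hτ : 0 < τ) (hB : 1 ≤ B) {a b c d t j k : ℝ}
    (ha : |a| ≤ B) (hb : |b| ≤ B) (hc : |c| ≤ 6 * (ε * B * B)) (hd : |d| ≤ 18 * (ε * B * B))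
    (hj : |j| ≤ 18 * (B * B * B)) (hk : k = a * (t / (t ^ 2 + τ) * c) +
      b * ((τ - t ^ 2) / (t ^ 2 + τ) ^ 2 * j * c + t / (t ^ 2 + τ) * d)) :
    |k| ≤ (B * ((1 + 1 / τ) * (6 * (B * B))) + B * (1 / τ * (18 * (B * B * B)) * (6 * (B * B)) +
      (1 + 1 / τ) * (18 * (B * B)))) * ε := by
  have q1 := q_bound (t := t) hτ
  have q2 := qd_bound (t := t) hτ
  have hB0 : 0 ≤ B := by linarith
  rw [hk]
  refine (abs_add_le _ _).trans ?_
  rw [abs_mul, abs_mul, abs_mul]
  have h1 : |(τ - t ^ 2) / (t ^ 2 + τ) ^ 2 * j * c + t / (t ^ 2 + τ) * d| ≤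
      1 / τ * (18 * (B * B * B)) * (6 * (ε * B * B)) + (1 + 1 / τ) * (18 * (ε * B * B)) := by
    refine (abs_add_le _ _).trans ?_
    rw [abs_mul, abs_mul, abs_mul]
    gcongr
  calc |a| * (|t / (t ^ 2 + τ)| * |c|) + |b| * |(τ - t ^ 2) / (t ^ 2 + τ) ^ 2 * j * c + t / (t ^ 2 + τ) * d|
      ≤ B * ((1 + 1 / τ) * (6 * (ε * B * B))) + B * (1 / τ * (18 * (B * B * B)) * (6 * (ε * B * B)) +
        (1 + 1 / τ) * (18 * (ε * B * B))) := by gcongr
    _ = _ := by ring

theorem contDiff_det3 {X : Type} [NormedAddCommGroup X] [NormedSpace ℝ X] {a b c : X → V}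
    (ha : ContDiff ℝ 1 a) (hb : ContDiff ℝ 1 b) (hc : ContDiff ℝ 1 c) :
    ContDiff ℝ 1 (fun z => det3 (a z) (b z) (c z)) := by
  have pa : ∀ i : Fin 3, ContDiff ℝ 1 (fun z => a z i) := fun i => (contDiff_pi.1 ha) i
  have pb : ∀ i : Fin 3, ContDiff ℝ 1 (fun z => b z i) := fun i => (contDiff_pi.1 hb) i
  have pc : ∀ i : Fin 3, ContDiff ℝ 1 (fun z => c z i) := fun i => (contDiff_pi.1 hc) i
  simp only [det3_eq]
  exact (((pa 0).mul (((pb 1).mul (pc 2)).sub ((pb 2).mul (pc 1)))).add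
    ((pa 1).mul (((pb 2).mul (pc 0)).sub ((pb 0).mul (pc 2))))).add
    ((pa 2).mul (((pb 0).mul (pc 1)).sub ((pb 1).mul (pc 0))))

theorem continuous_det3 {X : Type} [TopologicalSpace X] {a b c : X → V}
    (ha : Continuous a) (hb : Continuous b) (hc : Continuous c) :
    Continuous (fun z => det3 (a z) (b z) (c z)) := by
  have pa : ∀ i : Fin 3, Continuous (fun z => a z i) := fun i => (continuous_pi_iff.1 ha) i
  have pb : ∀ i : Fin 3, Continuous (fun z => b z i) := fun i => (continuous_pi_iff.1 hb) i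
  have pc : ∀ i : Fin 3, Continuous (fun z => c z i) := fun i => (continuous_pi_iff.1 hc) i
  simp only [det3_eq]
  exact (((pa 0).mul (((pb 1).mul (pc 2)).sub ((pb 2).mul (pc 1)))).add
    ((pa 1).mul (((pb 2).mul (pc 0)).sub ((pb 0).mul (pc 2))))).add
    ((pa 2).mul (((pb 0).mul (pc 1)).sub ((pb 1).mul (pc 0))))

theorem Af_contDiff {τ : ℝ} (hτ : 0 < τ) {h J D : ℝ × ℝ → ℝ} (hh : ContDiff ℝ 1 h)
    (hJ : ContDiff ℝ 1 J) (hD : ContDiff ℝ 1 D) : ContDiff ℝ 1 (Af τ h J D) := by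
  unfold Af
  refine hh.mul ((hJ.div ((hJ.pow 2).add contDiff_const) ?_).mul hD)
  intro z
  positivity

/-! ### Periodicity -/

theorem per_dx {E : Type} [NormedAddCommGroup E] [NormedSpace ℝ E] {F : ℝ × ℝ → E}
    (h : Per2 F) : Per2 (dx F) := by
  intro x y
  have h1 : (fun z : ℝ × ℝ => F (z + (2 * π, 0))) = F := by
    funext z
    obtain ⟨a, b⟩ := z
    simpa using (h a b).1
  have h2 : (fun z : ℝ × ℝ => F (z + (0, 2 * π))) = F := by
    funext z
    obtain ⟨a, b⟩ := z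
    simpa using (h a b).2
  constructor
  · have := fderiv_comp_add_right (𝕜 := ℝ) (f := F) (x := (x, y)) (2 * π, 0)
    rw [h1] at this
    simp only [dx]
    rw [this]
    simp
  · have := fderiv_comp_add_right (𝕜 := ℝ) (f := F) (x := (x, y)) (0, 2 * π)
    rw [h2] at this
    simp only [dx]
    rw [this]
    simp

theorem per_dy {E : Type} [NormedAddCommGroup E] [NormedSpace ℝ E] {F : ℝ × ℝ → E}
    (h : Per2 F) : Per2 (dy F) := by
  intro x y
  have h1 : (fun z : ℝ × ℝ => F (z + (2 * π, 0))) = F := by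
    funext z
    obtain ⟨a, b⟩ := z
    simpa using (h a b).1
  have h2 : (fun z : ℝ × ℝ => F (z + (0, 2 * π))) = F := by
    funext z
    obtain ⟨a, b⟩ := z
    simpa using (h a b).2
  constructor
  · have := fderiv_comp_add_right (𝕜 := ℝ) (f := F) (x := (x, y)) (2 * π, 0)
    rw [h1] at this
    simp only [dy]
    rw [this]
    simp
  · have := fderiv_comp_add_right (𝕜 := ℝ) (f := F) (x := (x, y)) (0, 2 * π)
    rw [h2] at this
    simp only [dy]
    rw [this]
    simp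

/-! ### The homotopy -/

section homotopy

variable (F G : ℝ × ℝ → V)

/-- the homotopy -/
noncomputable def Hc (s : ℝ) (z : ℝ × ℝ) : V := F z + s • (G z - F z)

/-- its derivatives -/
noncomputable def HX (s : ℝ) (z : ℝ × ℝ) : V := dx F z + s • (dx G z - dx F z)

noncomputable def HY (s : ℝ) (z : ℝ × ℝ) : V := dy F z + s • (dy G z - dy F z)

/-- its Jacobian -/
noncomputable def Jf (s : ℝ) (z : ℝ × ℝ) : ℝ := det3 (HX F G s z) (HY F G s z) (Hc F G s z)

/-- the derivative of the Jacobian in the direction of the homotopy -/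
noncomputable def Jd (s : ℝ) (z : ℝ × ℝ) : ℝ :=
  det3 (dx G z - dx F z) (HY F G s z) (Hc F G s z) +
    det3 (HX F G s z) (dy G z - dy F z) (Hc F G s z) +
    det3 (HX F G s z) (HY F G s z) (G z - F z)

/-- the weighted function -/
noncomputable def ph (τ : ℝ) (h : ℝ × ℝ → ℝ) (g : V → ℝ) (s : ℝ) (z : ℝ × ℝ) : ℝ :=
  h z * (Jf F G s z ^ 2 / (Jf F G s z ^ 2 + τ) * g (proj (Hc F G s z)))

/-- the two parts of its derivative -/
noncomputable def pd1 (τ : ℝ) (h : ℝ × ℝ → ℝ) (g : V → ℝ) (s : ℝ) (z : ℝ × ℝ) : ℝ :=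
  h z * (2 * Jf F G s z * τ / (Jf F G s z ^ 2 + τ) ^ 2 * Jd F G s z * g (proj (Hc F G s z)))

noncomputable def pd2 (τ : ℝ) (h : ℝ × ℝ → ℝ) (g : V → ℝ) (s : ℝ) (z : ℝ × ℝ) : ℝ :=
  h z * (Jf F G s z ^ 2 / (Jf F G s z ^ 2 + τ) *
      fderiv ℝ (fun x => g (proj x)) (Hc F G s z) (G z - F z))

variable {F G}

theorem line_deriv (a b : V) (s : ℝ) :
    HasFDerivAt (fun s : ℝ => a + s • b) ((ContinuousLinearMap.toSpanSingleton ℝ b)) s := by
  have h : HasDerivAt (fun s : ℝ => a + s • b) ((1 : ℝ) • b) s :=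
    ((hasDerivAt_id s).smul_const b).const_add a
  rw [one_smul] at h
  exact h.hasFDerivAt

theorem Jf_deriv (s : ℝ) (z : ℝ × ℝ) :
    HasDerivAt (fun s => Jf F G s z) (Jd F G s z) s := by
  obtain ⟨L, h1, h2⟩ := hasFDerivAt_det3 (line_deriv (dx F z) (dx G z - dx F z) s)
    (line_deriv (dy F z) (dy G z - dy F z) s) (line_deriv (F z) (G z - F z) s)
  have h3 := h1.hasDerivAt
  rw [h2 1] at h3
  simpa [Jd, Jf, HX, HY, Hc] using h3

theorem ph_deriv {τ : ℝ} (hτ : 0 < τ) {h : ℝ × ℝ → ℝ} {g : V → ℝ} (hg : ContDiff ℝ 1 g) {s : ℝ}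
    {z : ℝ × ℝ} (h0 : Hc F G s z ≠ 0) :
    HasDerivAt (fun s => ph F G τ h g s z) (pd1 F G τ h g s z + pd2 F G τ h g s z) s := by
  have h1 := (w_hasDerivAt hτ (Jf F G s z)).comp s (Jf_deriv (F := F) (G := G) s z)
  have h2 : HasFDerivAt (fun x => g (proj x)) (fderiv ℝ (fun x => g (proj x)) (Hc F G s z))
      (Hc F G s z) := ((gh_contDiffAt hg h0).differentiableAt (by norm_num)).hasFDerivAt
  have h3 : HasDerivAt (fun s => Hc F G s z) (G z - F z) s := by
    have : HasDerivAt (fun s : ℝ => F z + s • (G z - F z)) ((1 : ℝ) • (G z - F z)) s :=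
      ((hasDerivAt_id s).smul_const (G z - F z)).const_add (F z)
    simpa [Hc] using this
  have h4 := h2.comp_hasDerivAt s h3
  have h5 := (h1.mul h4).const_mul (h z)
  have e : pd1 F G τ h g s z + pd2 F G τ h g s z
      = h z * (2 * Jf F G s z * τ / (Jf F G s z ^ 2 + τ) ^ 2 * Jd F G s z *
        ((fun x => g (proj x)) ∘ fun s => Hc F G s z) s +
        ((fun t : ℝ => t ^ 2 / (t ^ 2 + τ)) ∘ fun s => Jf F G s z) s *
          fderiv ℝ (fun x => g (proj x)) (Hc F G s z) (G z - F z)) := by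
    simp only [pd1, pd2, Function.comp]
    ring
  rw [e]
  exact h5

/-- the clamp -/
noncomputable def cl (s : ℝ) : ℝ := max 0 (min 1 s)

theorem cl_mem (s : ℝ) : cl s ∈ Set.Icc (0 : ℝ) 1 :=
  ⟨le_max_left _ _, max_le zero_le_one (min_le_left _ _)⟩

theorem cl_eq {s : ℝ} (hs : s ∈ Set.Icc (0 : ℝ) 1) : cl s = s := by
  rw [cl, min_eq_right hs.2, max_eq_right hs.1]

theorem cl_continuous : Continuous cl := by
  unfold cl
  fun_prop

theorem gh_continuous {X : Type} [TopologicalSpace X] {g : V → ℝ} (hg : ContDiff ℝ 1 g)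
    {f : X → V} (hf : Continuous f) (h0 : ∀ x, f x ≠ 0) :
    Continuous (fun x => g (proj (f x))) := by
  rw [continuous_iff_continuousAt]
  intro x
  exact ContinuousAt.comp (f := f) (g := fun x => g (proj x))
    (gh_contDiffAt hg (h0 x)).continuousAt hf.continuousAt

theorem ghd_continuous {X : Type} [TopologicalSpace X] {g : V → ℝ} (hg : ContDiff ℝ 1 g)
    {f v : X → V} (hf : Continuous f) (h0 : ∀ x, f x ≠ 0) (hv : Continuous v) :
    Continuous (fun x => fderiv ℝ (fun x => g (proj x)) (f x) (v x)) := by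
  have h1 : Continuous (fun x => fderiv ℝ (fun x => g (proj x)) (f x)) := by
    rw [continuous_iff_continuousAt]
    intro x
    exact ContinuousAt.comp (f := f) (g := fun y => fderiv ℝ (fun x => g (proj x)) y)
      ((gh_contDiffAt hg (h0 x)).continuousAt_fderiv (by norm_num)) hf.continuousAt
  exact h1.clm_apply hv

theorem cont_Hc {A : Type} [TopologicalSpace A] {a b : A → V} {c : A → ℝ} (ha : Continuous a)
    (hb : Continuous b) (hc : Continuous c) : Continuous (fun p => a p + c p • (b p - a p)) :=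
  ha.add (hc.smul (hb.sub ha))

theorem pd_continuous {τ : ℝ} (hτ : 0 < τ) {h : ℝ × ℝ → ℝ} {g : V → ℝ} (hg : ContDiff ℝ 1 g)
    (hF : ContDiff ℝ 2 F) (hG : ContDiff ℝ 2 G) (hh : Continuous h)
    (h0 : ∀ s ∈ Set.Icc (0 : ℝ) 1, ∀ z, Hc F G s z ≠ 0) :
    Continuous (fun p : ℝ × (ℝ × ℝ) => pd1 F G τ h g (cl p.1) p.2) ∧
    Continuous (fun p : ℝ × (ℝ × ℝ) => pd2 F G τ h g (cl p.1) p.2) := by
  have cc : Continuous (fun p : ℝ × (ℝ × ℝ) => cl p.1) := cl_continuous.comp continuous_fst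
  have cF : Continuous (fun p : ℝ × (ℝ × ℝ) => F p.2) := hF.continuous.comp continuous_snd
  have cG : Continuous (fun p : ℝ × (ℝ × ℝ) => G p.2) := hG.continuous.comp continuous_snd
  have cFx : Continuous (fun p : ℝ × (ℝ × ℝ) => dx F p.2) :=
    (contDiff_dx hF).continuous.comp continuous_snd
  have cGx : Continuous (fun p : ℝ × (ℝ × ℝ) => dx G p.2) :=
    (contDiff_dx hG).continuous.comp continuous_snd
  have cFy : Continuous (fun p : ℝ × (ℝ × ℝ) => dy F p.2) :=
    (contDiff_dy hF).continuous.comp continuous_snd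
  have cGy : Continuous (fun p : ℝ × (ℝ × ℝ) => dy G p.2) :=
    (contDiff_dy hG).continuous.comp continuous_snd
  have ch : Continuous (fun p : ℝ × (ℝ × ℝ) => h p.2) := hh.comp continuous_snd
  have cH : Continuous (fun p : ℝ × (ℝ × ℝ) => Hc F G (cl p.1) p.2) := cont_Hc cF cG cc
  have cHX : Continuous (fun p : ℝ × (ℝ × ℝ) => HX F G (cl p.1) p.2) := cont_Hc cFx cGx cc
  have cHY : Continuous (fun p : ℝ × (ℝ × ℝ) => HY F G (cl p.1) p.2) := cont_Hc cFy cGy cc
  have cJ : Continuous (fun p : ℝ × (ℝ × ℝ) => Jf F G (cl p.1) p.2) := continuous_det3 cHX cHY cH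
  have cJd : Continuous (fun p : ℝ × (ℝ × ℝ) => Jd F G (cl p.1) p.2) :=
    ((continuous_det3 (cGx.sub cFx) cHY cH).add (continuous_det3 cHX (cGy.sub cFy) cH)).add
      (continuous_det3 cHX cHY (cG.sub cF))
  have c1 : Continuous (fun p : ℝ × (ℝ × ℝ) => g (proj (Hc F G (cl p.1) p.2))) :=
    gh_continuous hg cH fun p => h0 _ (cl_mem _) _
  have c2 := ghd_continuous hg cH (fun p => h0 _ (cl_mem _) _) (cG.sub cF)
  have cd : Continuous (fun p : ℝ × (ℝ × ℝ) => Jf F G (cl p.1) p.2 ^ 2 + τ) :=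
    (cJ.pow 2).add continuous_const
  constructor
  · refine ch.mul (((Continuous.div ((continuous_const.mul cJ).mul continuous_const)
      (cd.pow 2) ?_).mul cJd).mul c1)
    intro p
    show (Jf F G (cl p.1) p.2 ^ 2 + τ) ^ 2 ≠ 0
    positivity
  · refine ch.mul (((cJ.pow 2).div cd ?_).mul c2)
    intro p
    positivity

end homotopy

/-! ### Fubini -/

theorem cont_int {f : ℝ → ℝ → ℝ → ℝ}
    (hf : Continuous (fun p : ℝ × (ℝ × ℝ) => f p.1 p.2.1 p.2.2)) (a b : ℝ) :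
    Continuous (fun q : ℝ × ℝ => ∫ y in a..b, f q.1 q.2 y) := by
  apply intervalIntegral.continuous_parametric_intervalIntegral_of_continuous'
  exact hf.comp (by fun_prop : Continuous fun r : (ℝ × ℝ) × ℝ => (r.1.1, (r.1.2, r.2)))

theorem swap2 {f : ℝ → ℝ → ℝ} (hf : Continuous (fun p : ℝ × ℝ => f p.1 p.2)) (a b c d : ℝ) :
    ∫ x in a..b, ∫ y in c..d, f x y = ∫ y in c..d, ∫ x in a..b, f x y := by
  apply intervalIntegral_intervalIntegral_swap
  have hc : Continuous (Function.uncurry f) := hf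
  have h1 : IsCompact (Set.uIcc a b ×ˢ Set.uIcc c d) := isCompact_uIcc.prod isCompact_uIcc
  exact (hc.continuousOn.integrableOn_compact h1).mono_set
    (Set.prod_mono Set.uIoc_subset_uIcc Set.uIoc_subset_uIcc)

theorem swap3 {f : ℝ → ℝ → ℝ → ℝ}
    (hf : Continuous (fun p : ℝ × (ℝ × ℝ) => f p.1 p.2.1 p.2.2)) :
    tavg (fun x y => ∫ s in (0 : ℝ)..1, f s x y) = ∫ s in (0 : ℝ)..1, tavg (f s) := by
  simp only [tavg]
  rw [intervalIntegral.integral_div]
  congr 1
  have e1 : ∀ x, ∫ y in (0 : ℝ)..2 * π, ∫ s in (0 : ℝ)..1, f s x y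
      = ∫ s in (0 : ℝ)..1, ∫ y in (0 : ℝ)..2 * π, f s x y := by
    intro x
    apply swap2 (f := fun y s => f s x y)
    exact hf.comp (by fun_prop : Continuous fun p : ℝ × ℝ => (p.2, (x, p.1)))
  simp only [e1]
  apply swap2 (f := fun x s => ∫ y in (0 : ℝ)..2 * π, f s x y)
  exact (cont_int hf 0 (2 * π)).comp (by fun_prop : Continuous fun p : ℝ × ℝ => (p.2, p.1))

/-! ### The main estimate -/

theorem main_est {B τ ε E s : ℝ} (hT : G_T1a) (hB : 1 ≤ B) (hτ : 0 < τ) {F G : ℝ × ℝ → V}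
    {h : ℝ × ℝ → ℝ} {g : V → ℝ} (hF : C2bd F B) (hG : C2bd G B) (hh : C2bd h B)
    (hs : s ∈ Set.Icc (0 : ℝ) 1) (h0 : ∀ z, Hc F G s z ≠ 0) (hg : ContDiff ℝ 1 g)
    (hgE : ∀ u ∈ sph, |g u| ≤ E) (hn : C1near G F ε)
    (hc : Continuous (fun z : ℝ × ℝ => pd1 F G τ h g s z)) :
    |tavg (fun x y => pd1 F G τ h g s (x, y) + pd2 F G τ h g s (x, y))| ≤
      (B * (2 * (1 + 1 / τ) * (18 * (B * B))) +
        2 * (B * ((1 + 1 / τ) * (6 * (B * B))) + B * (1 / τ * (18 * (B * B * B)) * (6 * (B * B)) +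
          (1 + 1 / τ) * (18 * (B * B))))) * ε * E := by
  have hB0 : 0 ≤ B := by linarith
  have dF : Differentiable ℝ F := hF.smooth.differentiable (by norm_num)
  have dG : Differentiable ℝ G := hG.smooth.differentiable (by norm_num)
  have hH : C2bd (Hc F G s) B := hom_C2bd hF hG hs
  have cv2 : ContDiff ℝ 2 (fun z => G z - F z) := hG.smooth.sub hF.smooth
  have eX : dx (Hc F G s) = HX F G s := dx_hom dF dG s
  have eY : dy (Hc F G s) = HY F G s := dy_hom dF dG s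
  have cX : ContDiff ℝ 1 (dx (Hc F G s)) := contDiff_dx hH.smooth
  have cY : ContDiff ℝ 1 (dy (Hc F G s)) := contDiff_dy hH.smooth
  have cH : ContDiff ℝ 1 (Hc F G s) := hH.smooth.of_le (by norm_num)
  have cv : ContDiff ℝ 1 (fun z => G z - F z) := cv2.of_le (by norm_num)
  have ch : ContDiff ℝ 1 h := hh.smooth.of_le (by norm_num)
  have evx : dx (fun z => G z - F z) = fun z => dx G z - dx F z := by
    funext z
    have h1 := dx_eq ((dG z).hasFDerivAt.fun_sub (dF z).hasFDerivAt)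
    rw [h1]
    simp [dx]
  have evy : dy (fun z => G z - F z) = fun z => dy G z - dy F z := by
    funext z
    have h1 := dy_eq ((dG z).hasFDerivAt.fun_sub (dF z).hasFDerivAt)
    rw [h1]
    simp [dy]
  set v : ℝ × ℝ → V := fun z => G z - F z with hv
  have bv : ∀ z, ‖v z‖ ≤ ε := fun z => (hn z).1
  have bvx : ∀ z, ‖dx v z‖ ≤ ε := fun z => by rw [evx]; exact (hn z).2.1
  have bvy : ∀ z, ‖dy v z‖ ≤ ε := fun z => by rw [evy]; exact (hn z).2.2
  set H : ℝ × ℝ → V := Hc F G s with hHd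
  -- the functions
  set J : ℝ × ℝ → ℝ := fun z => det3 (dx H z) (dy H z) (H z) with hJ
  have eJ : ∀ z, Jf F G s z = J z := fun z => by simp only [Jf, hJ, eX, eY]; rfl
  have cJ : ContDiff ℝ 1 J := contDiff_det3 cX cY cH
  set D1 : ℝ × ℝ → ℝ := fun z => det3 (v z) (dy H z) (H z) with hD1
  set D2 : ℝ × ℝ → ℝ := fun z => det3 (dx H z) (v z) (H z) with hD2
  have cD1 : ContDiff ℝ 1 D1 := contDiff_det3 cv cY cH
  have cD2 : ContDiff ℝ 1 D2 := contDiff_det3 cX cv cH
  set u : ℝ × ℝ → ℝ := fun z => g (proj (H z)) with hu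
  have cu : ContDiff ℝ 1 u := by
    rw [contDiff_iff_contDiffAt]
    intro z
    exact (gh_contDiffAt hg (h0 z)).comp z cH.contDiffAt
  have cA : ContDiff ℝ 1 (Af τ h J D1) := Af_contDiff hτ ch cJ cD1
  have cB : ContDiff ℝ 1 (Af τ h J D2) := Af_contDiff hτ ch cJ cD2
  have pH : Per2 H := hH.per
  have pX : Per2 (dx H) := per_dx pH
  have pY : Per2 (dy H) := per_dy pH
  have pv : Per2 v := fun x y => ⟨by simp only [hv, (hF.per x y).1, (hG.per x y).1],
    by simp only [hv, (hF.per x y).2, (hG.per x y).2]⟩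
  have pJ : Per2 J := fun x y => ⟨by simp only [hJ, (pX x y).1, (pY x y).1, (pH x y).1],
    by simp only [hJ, (pX x y).2, (pY x y).2, (pH x y).2]⟩
  have pD1 : Per2 D1 := fun x y => ⟨by simp only [hD1, (pv x y).1, (pY x y).1, (pH x y).1],
    by simp only [hD1, (pv x y).2, (pY x y).2, (pH x y).2]⟩
  have pD2 : Per2 D2 := fun x y => ⟨by simp only [hD2, (pv x y).1, (pX x y).1, (pH x y).1],
    by simp only [hD2, (pv x y).2, (pX x y).2, (pH x y).2]⟩
  have pA : Per2 (Af τ h J D1) := fun x y =>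
    ⟨by simp only [Af, (hh.per x y).1, (pJ x y).1, (pD1 x y).1],
    by simp only [Af, (hh.per x y).2, (pJ x y).2, (pD1 x y).2]⟩
  have pB : Per2 (Af τ h J D2) := fun x y =>
    ⟨by simp only [Af, (hh.per x y).1, (pJ x y).1, (pD2 x y).1],
    by simp only [Af, (hh.per x y).2, (pJ x y).2, (pD2 x y).2]⟩
  have pu : Per2 u := fun x y => ⟨by simp only [hu, (pH x y).1], by simp only [hu, (pH x y).2]⟩
  have hE0 : 0 ≤ E := (abs_nonneg _).trans (hgE _ (e_sph 0))
  have bu : ∀ z, |u z| ≤ E := fun z => hgE _ (proj_sph (h0 z))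
  -- the second part is a derivative along the torus
  have ux : ∀ z, dx u z = fderiv ℝ (fun x => g (proj x)) (H z) (dx H z) := by
    intro z
    have h1 : HasFDerivAt (fun x => g (proj x)) (fderiv ℝ (fun x => g (proj x)) (H z)) (H z) :=
      ((gh_contDiffAt hg (h0 z)).differentiableAt (by norm_num)).hasFDerivAt
    have h2 : HasFDerivAt H (fderiv ℝ H z) z := ((cH.differentiable (by norm_num)) z).hasFDerivAt
    exact dx_eq (h1.comp z h2)
  have uy : ∀ z, dy u z = fderiv ℝ (fun x => g (proj x)) (H z) (dy H z) := by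
    intro z
    have h1 : HasFDerivAt (fun x => g (proj x)) (fderiv ℝ (fun x => g (proj x)) (H z)) (H z) :=
      ((gh_contDiffAt hg (h0 z)).differentiableAt (by norm_num)).hasFDerivAt
    have h2 : HasFDerivAt H (fderiv ℝ H z) z := ((cH.differentiable (by norm_num)) z).hasFDerivAt
    exact dy_eq (h1.comp z h2)
  have e2 : ∀ z, pd2 F G τ h g s z = Af τ h J D1 z * dx u z + Af τ h J D2 z * dy u z := by
    intro z
    have hcr := cramer (dx H z) (dy H z) (H z) (v z)
    have hd := congrArg (fderiv ℝ (fun x => g (proj x)) (H z)) hcr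
    rw [map_add, map_add, map_smul, map_smul, map_smul, map_smul, radial hg (h0 z), smul_zero,
      add_zero, smul_eq_mul, smul_eq_mul, smul_eq_mul] at hd
    have h3 : J z * fderiv ℝ (fun x => g (proj x)) (H z) (v z)
        = D1 z * dx u z + D2 z * dy u z := by
      rw [ux, uy]
      exact hd
    have hne : J z ^ 2 + τ ≠ 0 := by positivity
    have h4 : pd2 F G τ h g s z = h z * (J z ^ 2 / (J z ^ 2 + τ) *
        fderiv ℝ (fun x => g (proj x)) (H z) (v z)) := by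
      rw [pd2, eJ]
    rw [h4]
    calc h z * (J z ^ 2 / (J z ^ 2 + τ) * fderiv ℝ (fun x => g (proj x)) (H z) (v z))
        = h z * (J z / (J z ^ 2 + τ)) *
          (J z * fderiv ℝ (fun x => g (proj x)) (H z) (v z)) := by ring
      _ = _ := by
          rw [h3]
          simp only [Af]
          ring
  -- integration by parts
  have hI := hT _ _ u cA cB cu pA pB pu
  have bX := hH.bx
  have bY := hH.bY
  have b0 := hH.b0
  -- bounds
  have bD1 : ∀ z, |D1 z| ≤ 6 * (ε * B * B) := fun z => det3_bound (bv z) (bY z) (b0 z)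
  have bD2 : ∀ z, |D2 z| ≤ 6 * (ε * B * B) := fun z => by
    have := det3_bound (bX z) (bv z) (b0 z)
    calc |D2 z| ≤ 6 * (B * ε * B) := this
      _ = 6 * (ε * B * B) := by ring
  have hX : ∀ z, HasFDerivAt (dx H) (fderiv ℝ (dx H) z) z := fun z =>
    ((cX.differentiable (by norm_num)) z).hasFDerivAt
  have hY : ∀ z, HasFDerivAt (dy H) (fderiv ℝ (dy H) z) z := fun z =>
    ((cY.differentiable (by norm_num)) z).hasFDerivAt
  have hH1 : ∀ z, HasFDerivAt H (fderiv ℝ H z) z := fun z =>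
    ((cH.differentiable (by norm_num)) z).hasFDerivAt
  have hv1 : ∀ z, HasFDerivAt v (fderiv ℝ v z) z := fun z =>
    ((cv.differentiable (by norm_num)) z).hasFDerivAt
  have hh1 : ∀ z, HasFDerivAt h (fderiv ℝ h z) z := fun z =>
    ((ch.differentiable (by norm_num)) z).hasFDerivAt
  have bA : ∀ z, |dx (Af τ h J D1) z| ≤ (B * ((1 + 1 / τ) * (6 * (B * B))) +
      B * (1 / τ * (18 * (B * B * B)) * (6 * (B * B)) + (1 + 1 / τ) * (18 * (B * B)))) * ε := by
    intro z
    obtain ⟨LJ, hLJ, eLJ⟩ := hasFDerivAt_det3 (hX z) (hY z) (hH1 z)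
    obtain ⟨LD, hLD, eLD⟩ := hasFDerivAt_det3 (hv1 z) (hY z) (hH1 z)
    obtain ⟨L, hL, eL⟩ := Af_deriv hτ (hh1 z) hLJ hLD
    rw [dx_eq hL]
    refine Af_bound hτ hB (hh.bx z) (hh.b0 z) (bD1 z) ?_ ?_ (eL (1, 0))
    · rw [eLD]
      have t1 := det3_bound (bvx z) (bY z) (b0 z)
      have t2 := det3_bound (bv z) (hH.bxy z) (b0 z)
      have t3 := det3_bound (bv z) (bY z) (bX z)
      refine (abs_add_le _ _).trans ?_
      refine (add_le_add_left (abs_add_le _ _) _).trans ?_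
      have := add_le_add (add_le_add t1 t2) t3
      refine this.trans (le_of_eq ?_)
      ring
    · rw [eLJ]
      have t1 := det3_bound (hH.bxx z) (bY z) (b0 z)
      have t2 := det3_bound (bX z) (hH.bxy z) (b0 z)
      have t3 := det3_bound (bX z) (bY z) (bX z)
      refine (abs_add_le _ _).trans ?_
      refine (add_le_add_left (abs_add_le _ _) _).trans ?_
      have := add_le_add (add_le_add t1 t2) t3
      refine this.trans (le_of_eq ?_)
      ring
  have bB : ∀ z, |dy (Af τ h J D2) z| ≤ (B * ((1 + 1 / τ) * (6 * (B * B))) +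
      B * (1 / τ * (18 * (B * B * B)) * (6 * (B * B)) + (1 + 1 / τ) * (18 * (B * B)))) * ε := by
    intro z
    obtain ⟨LJ, hLJ, eLJ⟩ := hasFDerivAt_det3 (hX z) (hY z) (hH1 z)
    obtain ⟨LD, hLD, eLD⟩ := hasFDerivAt_det3 (hX z) (hv1 z) (hH1 z)
    obtain ⟨L, hL, eL⟩ := Af_deriv hτ (hh1 z) hLJ hLD
    rw [dy_eq hL]
    refine Af_bound hτ hB (hh.bY z) (hh.b0 z) (bD2 z) ?_ ?_ (eL (0, 1))
    · rw [eLD]
      have t1 := det3_bound (hH.byx z) (bv z) (b0 z)
      have t2 := det3_bound (bX z) (bvy z) (b0 z)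
      have t3 := det3_bound (bX z) (bv z) (bY z)
      refine (abs_add_le _ _).trans ?_
      refine (add_le_add_left (abs_add_le _ _) _).trans ?_
      have := add_le_add (add_le_add t1 t2) t3
      refine this.trans (le_of_eq ?_)
      ring
    · rw [eLJ]
      have t1 := det3_bound (hH.byx z) (bY z) (b0 z)
      have t2 := det3_bound (bX z) (hH.byy z) (b0 z)
      have t3 := det3_bound (bX z) (bY z) (bY z)
      refine (abs_add_le _ _).trans ?_
      refine (add_le_add_left (abs_add_le _ _) _).trans ?_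
      have := add_le_add (add_le_add t1 t2) t3
      refine this.trans (le_of_eq ?_)
      ring
  have b1 : ∀ z, |pd1 F G τ h g s z| ≤ B * (2 * (1 + 1 / τ) * (18 * (ε * B * B)) * E) := by
    intro z
    have hJd : |Jd F G s z| ≤ 18 * (ε * B * B) := by
      have t1 := det3_bound (hn z).2.1 (bY z) (b0 z)
      have t2 := det3_bound (bX z) (hn z).2.2 (b0 z)
      have t3 := det3_bound (bX z) (bY z) (hn z).1
      rw [Jd, ← eX, ← eY]
      refine (abs_add_le _ _).trans ?_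
      refine (add_le_add_left (abs_add_le _ _) _).trans ?_
      have := add_le_add (add_le_add t1 t2) t3
      refine this.trans (le_of_eq ?_)
      ring
    rw [pd1, abs_mul, abs_mul, abs_mul]
    have t4 := wd_bound (t := Jf F G s z) hτ
    have t5 := bu z
    have t6 : |h z| ≤ B := hh.b0 z
    have hε : 0 ≤ ε := (norm_nonneg _).trans (bv z)
    have t7 : 0 ≤ 2 * (1 + 1 / τ) * (18 * (ε * B * B)) := by positivity
    gcongr
  -- conclusion
  have c2 : Continuous (fun z : ℝ × ℝ => Af τ h J D1 z * dx u z + Af τ h J D2 z * dy u z) := by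
    have hx : Continuous (dx u) := by
      have : Continuous (fderiv ℝ u) := cu.continuous_fderiv (by norm_num)
      exact this.clm_apply continuous_const
    have hy : Continuous (dy u) := by
      have : Continuous (fderiv ℝ u) := cu.continuous_fderiv (by norm_num)
      exact this.clm_apply continuous_const
    exact (cA.continuous.mul hx).add (cB.continuous.mul hy)
  have e3 : (fun x y => pd1 F G τ h g s (x, y) + pd2 F G τ h g s (x, y))
      = fun x y => pd1 F G τ h g s (x, y) +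
        (Af τ h J D1 (x, y) * dx u (x, y) + Af τ h J D2 (x, y) * dy u (x, y)) := by
    funext x y
    rw [e2]
  rw [e3, tavg_add (g := fun x y => pd1 F G τ h g s (x, y))
    (h := fun x y => Af τ h J D1 (x, y) * dx u (x, y) + Af τ h J D2 (x, y) * dy u (x, y)) hc c2, hI]
  refine (abs_add_le _ _).trans ?_
  rw [abs_neg]
  have t1 := tavg_le (g := fun x y => pd1 F G τ h g s (x, y)) fun x y => b1 (x, y)
  have t2 := tavg_le (g := fun x y => u (x, y) * (dx (Af τ h J D1) (x, y) + dy (Af τ h J D2) (x, y)))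
    (B := E * ((B * ((1 + 1 / τ) * (6 * (B * B))) +
      B * (1 / τ * (18 * (B * B * B)) * (6 * (B * B)) + (1 + 1 / τ) * (18 * (B * B)))) * ε +
      (B * ((1 + 1 / τ) * (6 * (B * B))) +
      B * (1 / τ * (18 * (B * B * B)) * (6 * (B * B)) + (1 + 1 / τ) * (18 * (B * B)))) * ε))
    fun x y => by
      rw [abs_mul]
      exact mul_le_mul (bu _) ((abs_add_le _ _).trans (add_le_add (bA _) (bB _)))
        (abs_nonneg _) hE0
  refine (add_le_add t1 t2).trans (le_of_eq ?_)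
  ring

/-- **T1b.** -/
theorem gT1b (hT : G_T1a) : G_T1b := by
  intro B hB τ hτ
  have hB0 : 0 < B := by linarith
  refine ⟨B * (2 * (1 + 1 / τ) * (18 * (B * B))) +
        2 * (B * ((1 + 1 / τ) * (6 * (B * B))) + B * (1 / τ * (18 * (B * B * B)) * (6 * (B * B)) +
          (1 + 1 / τ) * (18 * (B * B)))), by positivity, ?_⟩
  intro F G h hF hG hh h0 g E hg hgE ε hε hn
  have h0' : ∀ s ∈ Set.Icc (0 : ℝ) 1, ∀ z, Hc F G s z ≠ 0 := h0
  obtain ⟨c1, c2⟩ := pd_continuous (F := F) (G := G) hτ (h := h) hg hF.smooth hG.smooth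
    hh.smooth.continuous h0'
  have hcs : Continuous (fun p : ℝ × (ℝ × ℝ) =>
      pd1 F G τ h g (cl p.1) p.2 + pd2 F G τ h g (cl p.1) p.2) := c1.add c2
  have key : ∀ z, h z * (wJ τ G z * g (proj (G z)) - wJ τ F z * g (proj (F z)))
      = ∫ s in (0 : ℝ)..1, (pd1 F G τ h g (cl s) z + pd2 F G τ h g (cl s) z) := by
    intro z
    have h1 : ∀ s ∈ Set.uIcc (0 : ℝ) 1, HasDerivAt (fun s => ph F G τ h g s z)
        (pd1 F G τ h g (cl s) z + pd2 F G τ h g (cl s) z) s := by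
      intro s hs
      rw [Set.uIcc_of_le zero_le_one] at hs
      rw [cl_eq hs]
      exact ph_deriv hτ hg (h0' s hs z)
    have h2 := intervalIntegral.integral_eq_sub_of_hasDerivAt h1
      ((hcs.comp (by fun_prop : Continuous fun s : ℝ => (s, z))).intervalIntegrable _ _)
    have dF : Differentiable ℝ F := hF.smooth.differentiable (by norm_num)
    have dG : Differentiable ℝ G := hG.smooth.differentiable (by norm_num)
    have e0 : Hc F G 0 = F := by
      funext z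
      simp [Hc]
    have e1 : Hc F G 1 = G := by
      funext z
      simp [Hc]
    have j0 : Jf F G 0 z = Jac F z := by simp [Jf, Jac, HX, HY, Hc]
    have j1 : Jf F G 1 z = Jac G z := by simp [Jf, Jac, HX, HY, Hc]
    rw [h2]
    simp only [ph, e0, e1, j0, j1, wJ]
    ring
  have e : (fun x y => h (x, y) * (wJ τ G (x, y) * g (proj (G (x, y)))
        - wJ τ F (x, y) * g (proj (F (x, y)))))
      = fun x y => ∫ s in (0 : ℝ)..1,
        (pd1 F G τ h g (cl s) (x, y) + pd2 F G τ h g (cl s) (x, y)) := by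
    funext x y
    exact key (x, y)
  rw [e, swap3 (f := fun s x y => pd1 F G τ h g (cl s) (x, y) + pd2 F G τ h g (cl s) (x, y)) hcs]
  have hb : ∀ s ∈ Set.uIoc (0 : ℝ) 1,
      ‖tavg (fun x y => pd1 F G τ h g (cl s) (x, y) + pd2 F G τ h g (cl s) (x, y))‖ ≤
      (B * (2 * (1 + 1 / τ) * (18 * (B * B))) +
        2 * (B * ((1 + 1 / τ) * (6 * (B * B))) + B * (1 / τ * (18 * (B * B * B)) * (6 * (B * B)) +
          (1 + 1 / τ) * (18 * (B * B))))) * ε * E := by
    intro s _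
    have hcl := cl_mem s
    have hc : Continuous (fun z : ℝ × ℝ => pd1 F G τ h g (cl s) z) :=
      c1.comp (by fun_prop : Continuous fun z : ℝ × ℝ => (s, z))
    exact main_est hT hB hτ hF hG hh hcl (h0' _ hcl) hg hgE hn hc
  have := intervalIntegral.norm_integral_le_of_norm_le_const hb
  simpa using this

end Pool.Agent.Helper96.LU

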